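import Mathlib
import Pool.Agent.Helper63.LinExt.Main

/-!
# MP_ae076f_co, Q1: the complete bipartite poset maximises the number of linear extensions

For `n ≥ 2`, `1 ≤ s ≤ n - 1` the maximum number of linear extensions of a poset on `n` points with
exactly `s (n - s)` comparable pairs is `s! (n - s)!`, attained by the poset of height two whose
comparability graph is complete bipartite.
-/

set_option autoImplicit false

namespace Pool.Agent.Results.MP_ae076f_co.BipartiteExtremal

open Pool.Agent.Helper63.LinExt Finset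

/-- the number of comparable pairs of the order `r`: unordered pairs `{x, y}`, `x ≠ y`, with
`x ≤ y` or `y ≤ x` -/
noncomputable def compPairs {n : ℕ} (r : Fin n → Fin n → Prop) : ℕ :=
  Set.ncard {e : Sym2 (Fin n) | ∃ x y : Fin n, x ≠ y ∧ r x y ∧ e = s(x, y)}

/-- `e(P)`: the number of total orders on the same set that contain the order `r` -/
noncomputable def linExt {n : ℕ} (r : Fin n → Fin n → Prop) : ℕ :=
  Set.ncard {L : Fin n → Fin n → Prop | IsLinearOrder (Fin n) L ∧ ∀ x y, r x y → L x y}

/-- `f(n,k)`: the maximum of `e(P)` over the posets on `n` points with `k` comparable pairs -/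
noncomputable def f (n k : ℕ) : ℕ :=
  sSup {m | ∃ r : Fin n → Fin n → Prop, IsPartialOrder (Fin n) r ∧ compPairs r = k ∧ linExt r = m}

/-- the poset `B_{s,n-s}`: the first `s` points are minimal, the others are maximal, and every
minimal point lies below every maximal one -/
def bip (n s : ℕ) : Fin n → Fin n → Prop := fun x y => x = y ∨ (x.val < s ∧ s ≤ y.val)

/-- strict relation attached to `r` -/
def rel {n : ℕ} (r : Fin n → Fin n → Prop) : Fin n → Fin n → Prop := fun a b => r a b ∧ a ≠ b

theorem compPairs_eq {n : ℕ} (r : Fin n → Fin n → Prop) (hr : IsPartialOrder (Fin n) r) :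
    compPairs r = K (rel r) (univ : Finset (Fin n)) := by
  classical
  unfold compPairs K
  have h1 : {e : Sym2 (Fin n) | ∃ x y : Fin n, x ≠ y ∧ r x y ∧ e = s(x, y)} =
      (fun p : Fin n × Fin n => s(p.1, p.2)) '' ((((univ : Finset (Fin n)) ×ˢ (univ : Finset (Fin n))).filter
        (fun p => rel r p.1 p.2) : Finset (Fin n × Fin n)) : Set (Fin n × Fin n)) := by
    ext e
    constructor
    · rintro ⟨x, y, hne, h, rfl⟩
      exact ⟨(x, y), by simpa [rel] using ⟨h, hne⟩, rfl⟩
    · rintro ⟨p, hp, rfl⟩
      have hp' : rel r p.1 p.2 := by simpa using hp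
      exact ⟨p.1, p.2, hp'.2, hp'.1, rfl⟩
  rw [h1, Set.InjOn.ncard_image, Set.ncard_coe_finset]
  intro p hp q hq h
  have hp' : rel r p.1 p.2 := by simpa using hp
  have hq' : rel r q.1 q.2 := by simpa using hq
  simp only [Sym2.eq, Sym2.rel_iff', Prod.mk.injEq, Prod.swap_prod_mk] at h
  rcases h with h | h
  · exact Prod.ext h.1 h.2
  · exfalso
    rw [h.1, h.2] at hp'
    exact hp'.2 (hr.antisymm _ _ hp'.1 hq'.1)

/-- two total orders for which the same duplicate-free list is increasing agree -/
theorem same_list {n : ℕ} {L L' : Fin n → Fin n → Prop} (hL : IsLinearOrder (Fin n) L)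
    (hL' : IsLinearOrder (Fin n) L') {l : List (Fin n)} (hmem : ∀ x, x ∈ l)
    (h : l.Pairwise L) (h' : l.Pairwise L') : L = L' := by
  have h2 : l.Pairwise (fun x y => (L x y ∧ L' x y) ∨ (L y x ∧ L' y x)) :=
    (h.and h').imp (fun h => Or.inl h)
  have : Std.Symm (fun x y => (L x y ∧ L' x y) ∨ (L y x ∧ L' y x)) := ⟨fun _ _ h => Or.symm h⟩
  have hsym : ∀ x y, x ≠ y → (L x y ∧ L' x y) ∨ (L y x ∧ L' y x) := by
    intro x y hxy
    exact h2.forall (hmem x) (hmem y) hxy
  ext x y
  by_cases hxy : x = y
  · subst hxy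
    exact ⟨fun _ => hL'.refl _, fun _ => hL.refl _⟩
  · rcases hsym x y hxy with h3 | h3
    · exact ⟨fun _ => h3.2, fun _ => h3.1⟩
    · constructor
      · intro h4
        exact absurd (hL.antisymm _ _ h4 h3.1) hxy
      · intro h4
        exact absurd (hL'.antisymm _ _ h4 h3.2) hxy

theorem linExt_le {n : ℕ} (r : Fin n → Fin n → Prop) :
    linExt r ≤ (LE (rel r) (univ : Finset (Fin n))).card := by
  classical
  unfold linExt
  rw [← Set.ncard_coe_finset]
  apply Set.ncard_le_ncard_of_injOn
    (fun L : Fin n → Fin n → Prop => if h : IsLinearOrder (Fin n) L then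
      (haveI := h; (univ : Finset (Fin n)).sort L) else [])
  · rintro L ⟨hL, hext⟩
    simp only [hL, dif_pos, mem_coe]
    rw [mem_LE]
    refine ⟨Finset.sort_nodup _ _, Finset.sort_toFinset _ _, ?_⟩
    have h1 : ((univ : Finset (Fin n)).sort L).Pairwise L := Finset.pairwise_sort _ _
    have h2 : ((univ : Finset (Fin n)).sort L).Nodup := Finset.sort_nodup _ _
    refine (h1.and h2).imp ?_
    rintro x y ⟨hxy, hne⟩ ⟨h3, _⟩
    exact hne (hL.antisymm _ _ hxy (hext _ _ h3))
  · rintro L ⟨hL, hext⟩ L' ⟨hL', hext'⟩ h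
    simp only [hL, hL', dif_pos] at h
    refine same_list hL hL' (l := (univ : Finset (Fin n)).sort L) (by simp)
      (Finset.pairwise_sort _ _) ?_
    rw [h]
    exact Finset.pairwise_sort _ _

theorem upper {n s : ℕ} (hs : s ≤ n) (r : Fin n → Fin n → Prop) (hr : IsPartialOrder (Fin n) r)
    (hk : compPairs r = s * (n - s)) : linExt r ≤ Nat.factorial s * Nat.factorial (n - s) := by
  refine (linExt_le r).trans ?_
  apply count_le hs Finset.univ (rel r) (fun x h => h.2 rfl) (Finset.card_fin n)
  rw [← compPairs_eq r hr, hk]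

theorem bip_po (n s : ℕ) : IsPartialOrder (Fin n) (bip n s) where
  refl x := Or.inl rfl
  trans x y z h1 h2 := by
    rcases h1 with rfl | h1
    · exact h2
    · rcases h2 with rfl | h2
      · exact Or.inr h1
      · omega
  antisymm x y h1 h2 := by
    rcases h1 with rfl | h1
    · rfl
    · rcases h2 with rfl | h2
      · rfl
      · omega

theorem bip_pairs {n s : ℕ} (hs : s ≤ n) : compPairs (bip n s) = s * (n - s) := by
  classical
  rw [compPairs_eq _ (bip_po n s), K]
  have h1 : (((univ : Finset (Fin n)) ×ˢ (univ : Finset (Fin n))).filter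
      (fun p => rel (bip n s) p.1 p.2)) =
      ((univ : Finset (Fin n)).filter (fun x => x.val < s)) ×ˢ
        ((univ : Finset (Fin n)).filter (fun x => ¬ x.val < s)) := by
    ext p
    simp only [mem_filter, mem_product, mem_univ, true_and, rel, bip, ne_eq, not_lt]
    constructor
    · rintro ⟨h1 | h1, h2⟩
      · exact absurd h1 h2
      · exact h1
    · intro h
      refine ⟨Or.inr h, ?_⟩
      intro h3
      rw [h3] at h
      omega
  have h2 : ((univ : Finset (Fin n)).filter (fun x => x.val < s)).card = s := by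
    rw [Fin.card_filter_val_lt]
    omega
  have h3 := Finset.card_filter_add_card_filter_not (s := (univ : Finset (Fin n)))
    (fun x => x.val < s)
  rw [Finset.card_univ, Fintype.card_fin] at h3
  have h4 : ((univ : Finset (Fin n)).filter (fun x => ¬ x.val < s)).card = n - s := by omega
  rw [← h4, h1, card_product, h2]

theorem lower {n s : ℕ} (hs : s ≤ n) :
    Nat.factorial s * Nat.factorial (n - s) ≤ linExt (bip n s) := by
  classical
  obtain ⟨t, rfl⟩ := Nat.exists_eq_add_of_le hs
  rw [Nat.add_sub_cancel_left]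
  have hcard : Nat.card (Equiv.Perm (Fin s) × Equiv.Perm (Fin t)) =
      Nat.factorial s * Nat.factorial t := by
    rw [Nat.card_prod, Nat.card_perm, Nat.card_perm, Nat.card_fin, Nat.card_fin]
  rw [← hcard, ← Set.ncard_univ]
  unfold linExt
  let e : Fin s ⊕ Fin t ≃ Fin (s + t) := finSumFinEquiv
  let σ : Equiv.Perm (Fin s) × Equiv.Perm (Fin t) → Fin (s + t) ≃ Fin (s + t) := fun pq =>
    (e.symm.trans (Equiv.sumCongr pq.1 pq.2)).trans e
  apply Set.ncard_le_ncard_of_injOn (fun pq => fun x y => σ pq x ≤ σ pq y)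
  · rintro pq -
    refine ⟨?_, ?_⟩
    · refine { refl := fun x => le_rfl, trans := fun x y z h1 h2 => h1.trans h2,
               antisymm := fun x y h1 h2 => (σ pq).injective (le_antisymm h1 h2),
               total := fun x y => le_total _ _ }
    · rintro x y (rfl | ⟨h1, h2⟩)
      · exact le_rfl
      · obtain ⟨x', rfl⟩ : ∃ x' : Fin s, x = Fin.castAdd t x' :=
          ⟨⟨x.val, h1⟩, by ext; simp⟩
        obtain ⟨y', rfl⟩ : ∃ y' : Fin t, y = Fin.natAdd s y' :=
          ⟨⟨y.val - s, by omega⟩, by ext; simp; omega⟩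
        have h3 : σ pq (Fin.castAdd t x') = Fin.castAdd t (pq.1 x') := by
          simp [σ, e]
        have h4 : σ pq (Fin.natAdd s y') = Fin.natAdd s (pq.2 y') := by
          simp [σ, e]
        show σ pq (Fin.castAdd t x') ≤ σ pq (Fin.natAdd s y')
        rw [h3, h4, Fin.le_def]
        simp only [Fin.val_castAdd, Fin.val_natAdd]
        omega
  · rintro pq - pq' - h
    have h1 : ∀ x y, σ pq x ≤ σ pq y ↔ σ pq' x ≤ σ pq' y := fun x y =>
      iff_of_eq (congrFun (congrFun h x) y)
    have h2 : σ pq = σ pq' := by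
      let φ : Fin (s + t) ≃o Fin (s + t) :=
        { toEquiv := (σ pq).symm.trans (σ pq')
          map_rel_iff' := by
            intro x y
            simp only [Equiv.trans_apply]
            rw [← h1]
            simp }
      have h3 : φ = OrderIso.refl _ := Subsingleton.elim _ _
      ext x
      have h4 : φ (σ pq x) = σ pq x := by rw [h3]; rfl
      have h5 : φ (σ pq x) = σ pq' x := by simp [φ]
      rw [← h4, h5]
    have h3 : Equiv.sumCongr pq.1 pq.2 = Equiv.sumCongr pq'.1 pq'.2 := by
      ext x
      have h4 := congrFun (congrArg DFunLike.coe h2) (e x)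
      simp only [σ, Equiv.trans_apply, Equiv.symm_apply_apply] at h4
      exact e.injective h4
    have h5 : Equiv.Perm.sumCongrHom (Fin s) (Fin t) pq = Equiv.Perm.sumCongrHom (Fin s) (Fin t) pq' := h3
    exact Equiv.Perm.sumCongrHom_injective h5

theorem result : ∀ n s : ℕ, 2 ≤ n → 1 ≤ s → s ≤ n - 1 →
    f n (s * (n - s)) = Nat.factorial s * Nat.factorial (n - s) ∧
    IsPartialOrder (Fin n) (bip n s) ∧ compPairs (bip n s) = s * (n - s) ∧
    linExt (bip n s) = f n (s * (n - s)) := by
  intro n s hn hs1 hs2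
  have hs : s ≤ n := by omega
  have hb : linExt (bip n s) = Nat.factorial s * Nat.factorial (n - s) :=
    le_antisymm (upper hs _ (bip_po n s) (bip_pairs hs)) (lower hs)
  have hf : f n (s * (n - s)) = Nat.factorial s * Nat.factorial (n - s) := by
    apply IsGreatest.csSup_eq
    refine ⟨⟨bip n s, bip_po n s, bip_pairs hs, hb⟩, ?_⟩
    rintro m ⟨r, hr, hk, rfl⟩
    exact upper hs r hr hk
  exact ⟨hf, bip_po n s, bip_pairs hs, by rw [hf, hb]⟩

end Pool.Agent.Results.MP_ae076f_co.BipartiteExtremal
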